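import Pool.Agent.H933.LL.Stm5

/-! A Jensen type inequality for powers of the logarithm. -/

set_option autoImplicit false

open MeasureTheory Metric
open scoped Real InnerProductSpace ENNReal

namespace Pool.Agent.H914.LL

open Pool.Agent.H933.LL

theorem jen_pt (q D x : ℝ) (hq : 1 < q) (hD : 1 ≤ D) (hx : 0 ≤ x) :
    (Real.posLog x) ^ q ≤ (2 * Real.log D) ^ q + (2 * q) ^ q / D * x := by
  have hD0 : 0 < D := by linarith
  have hq0 : 0 < q := by linarith
  have hl : 0 ≤ Real.log D := Real.log_nonneg hD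
  have hp : 0 ≤ Real.posLog x := Real.posLog_nonneg
  rcases le_total x (D ^ 2) with h | h
  · have h1 : Real.posLog x ≤ 2 * Real.log D := by
      rcases le_total x 1 with h1 | h1
      · rw [(Real.posLog_eq_zero_iff x).2 (by rw [abs_of_nonneg hx]; exact h1)]
        positivity
      · rw [Real.posLog_eq_log (by rw [abs_of_nonneg hx]; exact h1)]
        have h2 := Real.log_le_log (by linarith) h
        rwa [Real.log_pow, Nat.cast_ofNat] at h2
    have h3 := Real.rpow_le_rpow hp h1 hq0.le
    have h4 : 0 ≤ (2 * q) ^ q / D * x := by positivity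
    linarith
  · have hx1 : 1 ≤ x := le_trans (by nlinarith) h
    have hx0 : 0 < x := by linarith
    rw [Real.posLog_eq_log (by rw [abs_of_nonneg hx]; exact hx1)]
    have h1 : Real.log x ≤ 2 * q * x ^ (1 / (2 * q)) := by
      have h2 := Real.log_le_self (x := x ^ (1 / (2 * q))) (by positivity)
      rw [Real.log_rpow hx0] at h2
      have h3 : Real.log x = 2 * q * (1 / (2 * q) * Real.log x) := by
        field_simp
      rw [h3]
      exact mul_le_mul_of_nonneg_left h2 (by positivity)
    have h4 := Real.rpow_le_rpow (Real.log_nonneg hx1) h1 hq0.le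
    rw [Real.mul_rpow (by positivity) (by positivity), ← Real.rpow_mul hx0.le] at h4
    have h5 : 1 / (2 * q) * q = 1 / 2 := by field_simp
    rw [h5, ← Real.sqrt_eq_rpow] at h4
    have h6 : D ≤ √x := Real.le_sqrt_of_sq_le h
    have h7 : √x ≤ x / D := by
      rw [le_div_iff₀ hD0]
      calc √x * D ≤ √x * √x := mul_le_mul_of_nonneg_left h6 (Real.sqrt_nonneg _)
        _ = x := Real.mul_self_sqrt hx
    have h8 : (2 * q) ^ q * √x ≤ (2 * q) ^ q * (x / D) :=
      mul_le_mul_of_nonneg_left h7 (by positivity)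
    have h9 : (2 * q) ^ q * (x / D) = (2 * q) ^ q / D * x := by ring
    have h10 : 0 ≤ (2 * Real.log D) ^ q := by positivity
    linarith

theorem p_jen : P_jen := by
  intro q hq
  have hq0 : 0 < q := by linarith
  refine ⟨2 ^ q + (2 * q) ^ q, by positivity, ?_⟩
  intro m m0 D x hm hm0 hD hxm hx hI
  have hD0 : 0 < D := by linarith
  have hl : 0 ≤ Real.log D := Real.log_nonneg hD
  have hc : 0 ≤ (2 * q) ^ q / D := by positivity
  have h10 : 0 ≤ (2 * Real.log D) ^ q := by positivity
  calc ∫⁻ k, ENNReal.ofReal ((Real.posLog (x k)) ^ q) ∂m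
      ≤ ∫⁻ k, (ENNReal.ofReal ((2 * Real.log D) ^ q) +
          ENNReal.ofReal ((2 * q) ^ q / D) * ENNReal.ofReal (x k)) ∂m := by
        refine lintegral_mono fun k => ?_
        rw [← ENNReal.ofReal_mul hc, ← ENNReal.ofReal_add h10 (mul_nonneg hc (hx k))]
        exact ENNReal.ofReal_le_ofReal (jen_pt q D (x k) hq hD (hx k))
    _ = ENNReal.ofReal ((2 * Real.log D) ^ q) * m Set.univ +
          ENNReal.ofReal ((2 * q) ^ q / D) * ∫⁻ k, ENNReal.ofReal (x k) ∂m := by
        rw [lintegral_add_left measurable_const, lintegral_const,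
          lintegral_const_mul' _ _ ENNReal.ofReal_ne_top]
    _ ≤ ENNReal.ofReal ((2 * Real.log D) ^ q) * ENNReal.ofReal m0 +
          ENNReal.ofReal ((2 * q) ^ q / D) * ENNReal.ofReal D := by gcongr
    _ = ENNReal.ofReal ((2 * Real.log D) ^ q * m0 + (2 * q) ^ q / D * D) := by
        rw [← ENNReal.ofReal_mul h10, ← ENNReal.ofReal_mul hc,
          ← ENNReal.ofReal_add (mul_nonneg h10 hm0) (mul_nonneg hc hD0.le)]
    _ ≤ _ := by
        refine ENNReal.ofReal_le_ofReal ?_
        rw [div_mul_cancel₀ _ hD0.ne', Real.mul_rpow (by norm_num) hl]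
        have e1 : (Real.log D) ^ q ≤ (1 + Real.log D) ^ q :=
          Real.rpow_le_rpow hl (by linarith) hq0.le
        have e2 : 1 ≤ (1 + Real.log D) ^ q := Real.one_le_rpow (by linarith) hq0.le
        have e3 : (0 : ℝ) < 2 ^ q := by positivity
        have e4 : (0 : ℝ) < (2 * q) ^ q := by positivity
        have e5 : 2 ^ q * (Real.log D) ^ q * m0 ≤ 2 ^ q * (m0 + 1) * (1 + Real.log D) ^ q := by
          have : 2 ^ q * (Real.log D) ^ q * m0 ≤ 2 ^ q * (1 + Real.log D) ^ q * (m0 + 1) := by
            gcongr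
            linarith
          linarith
        have e6 : (2 * q) ^ q ≤ (2 * q) ^ q * (m0 + 1) * (1 + Real.log D) ^ q := by
          have h1 : (1 : ℝ) ≤ (m0 + 1) * (1 + Real.log D) ^ q := by nlinarith
          calc (2 * q) ^ q = (2 * q) ^ q * 1 := (mul_one _).symm
            _ ≤ (2 * q) ^ q * ((m0 + 1) * (1 + Real.log D) ^ q) :=
              mul_le_mul_of_nonneg_left h1 e4.le
            _ = _ := by ring
        linarith

end Pool.Agent.H914.LL

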